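import Pool.Agent.Lib.MP_cff830_lc.SDP.Lev.Stmts
import Pool.Agent.Lib.MP_cff830_lc.SDP.Plo

/-! (L2): a large ball is a binomial mixture of small balls. -/

set_option autoImplicit false

namespace Pool.Agent.Lib.MP_cff830_lc.SDP

open Finset MeasureTheory Real

namespace BinMix

theorem theta_le {t z : ℝ} (ht : 0 < t) (ht1 : t < 1) (hz : -1 + 2 * t ^ 2 ≤ z) :
    arccos z / 2 ≤ arccos t := by
  have h1 : arccos z ≤ arccos (-1 + 2 * t ^ 2) := arccos_le_arccos hz
  have h2 : cos (2 * arccos t) = -1 + 2 * t ^ 2 := by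
    rw [cos_two_mul, cos_arccos (by linarith) ht1.le]
    ring
  have hT1 : arccos t ≤ π / 2 := arccos_le_pi_div_two.2 ht.le
  have h3 : arccos (-1 + 2 * t ^ 2) = 2 * arccos t := by
    rw [← h2, arccos_cos (by linarith [arccos_nonneg t]) (by linarith)]
  linarith

theorem term (M : ℕ) (q r : ℝ) :
    (1 - q * r) ^ M = ∑ i ∈ range (M + 1), bw M q i * (1 - r) ^ i := by
  have h : 1 - q * r = q * (1 - r) + (1 - q) := by ring
  rw [h, add_pow]
  refine Finset.sum_congr rfl fun i _ => ?_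
  unfold bw
  rw [mul_pow]
  ring

theorem kap {M : ℕ} {t q : ℝ} (ht : 0 < t) (ht1 : t < 1) (hq : 0 < q) (hq1 : q < 1) :
    0 ≤ 1 / π * ∫ v in (arccos t)..(arccos (√q * t)), (1 - (√q * t) ^ 2 / cos v ^ 2) ^ M ∧
    1 / π * (∫ v in (arccos t)..(arccos (√q * t)), (1 - (√q * t) ^ 2 / cos v ^ 2) ^ M) ≤
      (1 - q) ^ M := by
  have hpi := pi_pos
  have hs0 : 0 < √q := Real.sqrt_pos.2 hq
  have hs1 : √q < 1 := by
    rw [Real.sqrt_lt' one_pos]
    simpa using hq1
  have ht'0 : 0 < √q * t := by positivity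
  have ht'1 : √q * t < 1 := by nlinarith
  have ht't : √q * t ≤ t := by nlinarith
  have hsq : (√q * t) ^ 2 = q * t ^ 2 := by
    rw [mul_pow, Real.sq_sqrt hq.le]
  have hTT : arccos t ≤ arccos (√q * t) := arccos_le_arccos ht't
  have hT0 : 0 ≤ arccos t := arccos_nonneg t
  have hT' : arccos (√q * t) ≤ π / 2 := arccos_le_pi_div_two.2 ht'0.le
  have hI : IntervalIntegrable (fun v => (1 - (√q * t) ^ 2 / cos v ^ 2) ^ M) volume
      (arccos t) (arccos (√q * t)) := by
    apply ContinuousOn.intervalIntegrable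
    rw [Set.uIcc_of_le hTT]
    exact (continuousOn_const.sub ((Plo.cont ht'0 ht'1).mono
      (Set.Icc_subset_Icc hT0 le_rfl))).pow M
  have hpt : ∀ v ∈ Set.Icc (arccos t) (arccos (√q * t)),
      0 ≤ (1 - (√q * t) ^ 2 / cos v ^ 2) ^ M ∧ (1 - (√q * t) ^ 2 / cos v ^ 2) ^ M ≤ (1 - q) ^ M := by
    intro v hv
    have hv' : v ∈ Set.Icc 0 (arccos (√q * t)) := ⟨hT0.trans hv.1, hv.2⟩
    obtain ⟨h2, h3⟩ := Plo.ratio ht'0 ht'1 hv'
    have hc0 : 0 < cos v := lt_of_lt_of_le ht'0 (Plo.cos_ge ht'0 ht'1 hv')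
    have hc1 : cos v ≤ t := by
      have h1 : cos (arccos t) = t := cos_arccos (by linarith) ht1.le
      conv_rhs => rw [← h1]
      exact cos_le_cos_of_nonneg_of_le_pi hT0 (by linarith [hv.2]) hv.1
    have h4 : q ≤ (√q * t) ^ 2 / cos v ^ 2 := by
      rw [le_div_iff₀ (by positivity), hsq]
      have : cos v ^ 2 ≤ t ^ 2 := pow_le_pow_left₀ hc0.le hc1 2
      exact mul_le_mul_of_nonneg_left this hq.le
    have h5 : 0 ≤ 1 - (√q * t) ^ 2 / cos v ^ 2 := by linarith
    exact ⟨pow_nonneg h5 M, pow_le_pow_left₀ h5 (by linarith) M⟩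
  constructor
  · apply mul_nonneg (by positivity)
    exact intervalIntegral.integral_nonneg hTT fun v hv => (hpt v hv).1
  · have h1 : (∫ v in (arccos t)..(arccos (√q * t)), (1 - (√q * t) ^ 2 / cos v ^ 2) ^ M) ≤
        ∫ _ in (arccos t)..(arccos (√q * t)), (1 - q) ^ M :=
      intervalIntegral.integral_mono_on hTT hI intervalIntegrable_const fun v hv => (hpt v hv).2
    rw [intervalIntegral.integral_const, smul_eq_mul] at h1
    have h2 : 0 ≤ (1 - q) ^ M := pow_nonneg (by linarith) M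
    have h3 : (arccos (√q * t) - arccos t) * (1 - q) ^ M ≤ π * (1 - q) ^ M :=
      mul_le_mul_of_nonneg_right (by linarith) h2
    have h4 := h1.trans h3
    rw [one_div, inv_mul_le_iff₀ hpi]
    exact h4

end BinMix

theorem stBinMix : StBinMix := by
  intro M t q ht ht1 hq hq1
  have hpi := pi_pos
  have hs0 : 0 < √q := Real.sqrt_pos.2 hq
  have hs1 : √q < 1 := by
    rw [Real.sqrt_lt' one_pos]
    simpa using hq1
  have ht'0 : 0 < √q * t := by positivity
  have ht'1 : √q * t < 1 := by nlinarith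
  have ht't : √q * t ≤ t := by nlinarith
  have hsq : (√q * t) ^ 2 = q * t ^ 2 := by
    rw [mul_pow, Real.sq_sqrt hq.le]
  have hTT : arccos t ≤ arccos (√q * t) := arccos_le_arccos ht't
  have hT0 : 0 ≤ arccos t := arccos_nonneg t
  obtain ⟨hk0, hk1⟩ := BinMix.kap (M := M) ht ht1 hq hq1
  refine ⟨_, hk0, hk1, fun z hz _ => ?_⟩
  have hth := BinMix.theta_le ht ht1 hz
  have hth0 : 0 ≤ arccos z / 2 := by linarith [arccos_nonneg z]
  have hC := (continuousOn_const (c := (1 : ℝ))).sub (Plo.cont ht'0 ht'1)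
  have hI1 : IntervalIntegrable (fun v => (1 - (√q * t) ^ 2 / cos v ^ 2) ^ M) volume
      (arccos z / 2) (arccos t) := by
    apply ContinuousOn.intervalIntegrable
    rw [Set.uIcc_of_le hth]
    exact (hC.mono (Set.Icc_subset_Icc hth0 hTT)).pow M
  have hI2 : IntervalIntegrable (fun v => (1 - (√q * t) ^ 2 / cos v ^ 2) ^ M) volume
      (arccos t) (arccos (√q * t)) := by
    apply ContinuousOn.intervalIntegrable
    rw [Set.uIcc_of_le hTT]
    exact (hC.mono (Set.Icc_subset_Icc hT0 le_rfl)).pow M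
  have hsplit := intervalIntegral.integral_add_adjacent_intervals hI1 hI2
  have hfirst : (∫ v in (arccos z / 2)..(arccos t), (1 - (√q * t) ^ 2 / cos v ^ 2) ^ M) =
      ∑ i ∈ range (M + 1), bw M q i *
        ∫ v in (arccos z / 2)..(arccos t), (1 - t ^ 2 / cos v ^ 2) ^ i := by
    have h1 : ∀ v : ℝ, (1 - (√q * t) ^ 2 / cos v ^ 2) ^ M =
        ∑ i ∈ range (M + 1), bw M q i * (1 - t ^ 2 / cos v ^ 2) ^ i := by
      intro v
      rw [← BinMix.term, hsq, mul_div_assoc]
    simp_rw [h1]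
    rw [intervalIntegral.integral_finsetSum]
    · refine Finset.sum_congr rfl fun i _ => ?_
      rw [intervalIntegral.integral_const_mul]
    · intro i _
      apply ContinuousOn.intervalIntegrable
      rw [Set.uIcc_of_le hth]
      exact continuousOn_const.mul ((((continuousOn_const (c := (1 : ℝ))).sub
        (Plo.cont ht ht1)).mono (Set.Icc_subset_Icc hth0 le_rfl)).pow i)
  unfold pairF
  rw [← hsplit, hfirst, mul_add, add_comm, Finset.mul_sum]
  congr 1
  refine Finset.sum_congr rfl fun i _ => ?_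
  ring

end Pool.Agent.Lib.MP_cff830_lc.SDP
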