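import Pool.Agent.Lib.MP_cff830_lc.SDP.Lev.Stmts

/-!
# (L4) mixtures of local distributions and the empty set
-/

set_option autoImplicit false

namespace Pool.Agent.Lib.MP_cff830_lc.SDP

open Finset

namespace ConvAux

variable {V : Type} [DecidableEq V]

theorem empty_total (S : Finset V) :
    ∑ U ∈ S.powerset, (if U = ∅ then (1 : ℝ) else 0) = 1 := by
  rw [sum_ite_eq', if_pos (empty_mem_powerset S)]

theorem empty_cons (S T U : Finset V) (hU : U ⊆ S) :
    (if U = ∅ then (1 : ℝ) else 0) =
      ∑ W ∈ T.powerset with W ∩ S = U, (if W = ∅ then (1 : ℝ) else 0) := by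
  rw [sum_ite_eq']
  refine if_congr ?_ rfl rfl
  rw [mem_filter, empty_inter]
  constructor
  · rintro rfl
    exact ⟨empty_mem_powerset T, rfl⟩
  · rintro ⟨-, h⟩
    exact h.symm

end ConvAux

open ConvAux in
/-- Module L4. -/
theorem stConv : StConv := by
  intro V _ _ k I b μ hI hb
  refine ⟨fun S U => ∑ i ∈ I, b i * μ i S U + (1 - ∑ i ∈ I, b i) * (if U = ∅ then 1 else 0),
    ⟨?_, ?_, ?_⟩, ?_, ?_⟩
  · intro S U
    refine add_nonneg (sum_nonneg fun i hi => mul_nonneg (hI i hi).1 ((hI i hi).2.nonneg S U))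
      (mul_nonneg (by linarith) ?_)
    split_ifs
    · exact zero_le_one
    · exact le_rfl
  · intro S hS
    rw [sum_add_distrib, ← mul_sum, empty_total, sum_comm]
    have h1 : ∑ i ∈ I, ∑ U ∈ S.powerset, b i * μ i S U = ∑ i ∈ I, b i := by
      refine sum_congr rfl fun i hi => ?_
      rw [← mul_sum, (hI i hi).2.total S hS, mul_one]
    rw [h1]
    ring
  · intro S T hST hT U hU
    rw [sum_add_distrib, ← mul_sum, ← empty_cons S T U hU, sum_comm]
    congr 1
    refine sum_congr rfl fun i hi => ?_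
    rw [← mul_sum, ← (hI i hi).2.cons S T hST hT U hU]
  · intro S U h
    by_cases hU : U = ∅
    · exact Or.inl hU
    · right
      beta_reduce at h
      rw [if_neg hU, mul_zero, add_zero] at h
      obtain ⟨i, hi, hne⟩ := exists_ne_zero_of_sum_ne_zero h
      exact ⟨i, hi, fun h0 => hne (by rw [h0, mul_zero])⟩
  · intro x y
    beta_reduce
    rw [if_neg (insert_ne_empty x {y}), mul_zero, add_zero]

end Pool.Agent.Lib.MP_cff830_lc.SDP
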