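import Pool.Agent.Lib.MP_cff830_lc.SDP.Lev.Stmts

/-!
# (L5) the covariance of a random set is positive semidefinite
-/

set_option autoImplicit false

namespace Pool.Agent.Lib.MP_cff830_lc.SDP

open Finset

namespace GlobAux

variable {V : Type} [Fintype V] [DecidableEq V] {k : ℕ} {μ : Finset V → Finset V → ℝ}

theorem pair_eq (h : IsLoc k μ) (hk : Fintype.card V ≤ k) (x y : V) :
    μ {x, y} {x, y} = ∑ W, (if x ∈ W then (1 : ℝ) else 0) * (if y ∈ W then 1 else 0) *
      μ univ W := by
  have h1 := h.cons {x, y} univ (subset_univ _) (by rwa [Finset.card_univ]) {x, y} subset_rfl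
  rw [h1, Finset.powerset_univ, Finset.sum_filter]
  refine Finset.sum_congr rfl fun W _ => ?_
  have h2 : W ∩ {x, y} = {x, y} ↔ x ∈ W ∧ y ∈ W := by
    rw [Finset.inter_eq_right, Finset.insert_subset_iff, Finset.singleton_subset_iff]
  by_cases hxy : x ∈ W ∧ y ∈ W
  · rw [if_pos (h2.2 hxy), if_pos hxy.1, if_pos hxy.2, one_mul, one_mul]
  · rw [if_neg (fun h3 => hxy (h2.1 h3))]
    by_cases hx : x ∈ W
    · have hy : y ∉ W := fun hy => hxy ⟨hx, hy⟩
      rw [if_neg hy, mul_zero, zero_mul]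
    · rw [if_neg hx, zero_mul, zero_mul]

theorem tot_eq (h : IsLoc k μ) (hk : Fintype.card V ≤ k) : ∑ W, μ univ W = 1 := by
  have h1 := h.total univ (by rwa [Finset.card_univ])
  rwa [Finset.powerset_univ] at h1

end GlobAux

open GlobAux in
theorem stGlob : StGlob := by
  intro V _ _ k μ p h hk hp c
  set Z : Finset V → ℝ := fun W => ∑ x, c x * (if x ∈ W then 1 else 0) with hZ
  have e1 : ∑ x, ∑ y, c x * c y * (μ {x, y} {x, y} - p ^ 2) =
      ∑ W, μ univ W * Z W ^ 2 - (p * ∑ x, c x) ^ 2 := by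
    have a1 : ∑ x, ∑ y, c x * c y * μ {x, y} {x, y} = ∑ W, μ univ W * Z W ^ 2 := by
      have b1 : ∀ x y, c x * c y * μ {x, y} {x, y} = ∑ W, μ univ W *
          ((c x * (if x ∈ W then 1 else 0)) * (c y * (if y ∈ W then 1 else 0))) := by
        intro x y
        rw [pair_eq h hk, Finset.mul_sum]
        refine Finset.sum_congr rfl fun W _ => ?_
        ring
      simp only [b1]
      rw [Finset.sum_congr rfl fun x _ => Finset.sum_comm, Finset.sum_comm]
      refine Finset.sum_congr rfl fun W _ => ?_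
      rw [sq, hZ]
      dsimp only
      rw [Finset.sum_mul_sum, Finset.mul_sum]
      refine Finset.sum_congr rfl fun x _ => ?_
      rw [Finset.mul_sum]
    have a2 : ∑ x, ∑ y, c x * c y * p ^ 2 = (p * ∑ x, c x) ^ 2 := by
      rw [mul_pow, sq (∑ x, c x), Finset.sum_mul_sum, Finset.mul_sum]
      refine Finset.sum_congr rfl fun x _ => ?_
      rw [Finset.mul_sum]
      refine Finset.sum_congr rfl fun y _ => ?_
      ring
    rw [← a1, ← a2, ← Finset.sum_sub_distrib]
    refine Finset.sum_congr rfl fun x _ => ?_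
    rw [← Finset.sum_sub_distrib]
    refine Finset.sum_congr rfl fun y _ => ?_
    ring
  have e2 : p * ∑ x, c x = ∑ W, μ univ W * Z W := by
    have b1 : ∀ x, p * c x = ∑ W, μ univ W * (c x * (if x ∈ W then 1 else 0)) := by
      intro x
      have b2 := pair_eq h hk x x
      rw [Finset.pair_eq_singleton, hp x] at b2
      rw [b2, Finset.sum_mul]
      refine Finset.sum_congr rfl fun W _ => ?_
      by_cases hx : x ∈ W
      · simp [hx]
      · simp [hx]
    rw [Finset.mul_sum]
    simp only [b1]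
    rw [Finset.sum_comm]
    refine Finset.sum_congr rfl fun W _ => ?_
    rw [hZ]
    dsimp only
    rw [Finset.mul_sum]
  rw [e1]
  set m : ℝ := p * ∑ x, c x with hm
  have e3 : 0 ≤ ∑ W, μ univ W * (Z W - m) ^ 2 :=
    Finset.sum_nonneg fun W _ => mul_nonneg (h.nonneg _ _) (sq_nonneg _)
  have e4 : ∑ W, μ univ W * (Z W - m) ^ 2 =
      ∑ W, μ univ W * Z W ^ 2 - 2 * m * ∑ W, μ univ W * Z W + m ^ 2 * ∑ W, μ univ W := by
    rw [Finset.mul_sum, Finset.mul_sum, ← Finset.sum_sub_distrib, ← Finset.sum_add_distrib]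
    refine Finset.sum_congr rfl fun W _ => ?_
    ring
  rw [e4, ← e2, tot_eq h hk] at e3
  linarith

end Pool.Agent.Lib.MP_cff830_lc.SDP
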