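import Pool.Agent.Lib.MP_cff830_lc.SDP.Lev.Stmts

/-!
# (L6) the product of a positive semidefinite kernel with the kernel of a random set
-/

set_option autoImplicit false

namespace Pool.Agent.Lib.MP_cff830_lc.SDP

open Finset

theorem stMulR : StMulR := by
  intro V _ _ A ν hA hν c
  have h1 : ∑ x, ∑ y, c x * c y * (A x y * ∑ R : Finset V, if x ∈ R ∧ y ∈ R then ν R else 0) =
      ∑ R : Finset V, ν R * ∑ x, ∑ y, (c x * if x ∈ R then 1 else 0) *
        (c y * if y ∈ R then 1 else 0) * A x y := by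
    simp_rw [Finset.mul_sum]
    calc ∑ x, ∑ y, ∑ R : Finset V, c x * c y * (A x y * if x ∈ R ∧ y ∈ R then ν R else 0)
        = ∑ x, ∑ R : Finset V, ∑ y, c x * c y * (A x y * if x ∈ R ∧ y ∈ R then ν R else 0) :=
          Finset.sum_congr rfl fun x _ => Finset.sum_comm
      _ = ∑ R : Finset V, ∑ x, ∑ y, c x * c y * (A x y * if x ∈ R ∧ y ∈ R then ν R else 0) :=
          Finset.sum_comm
      _ = _ := by
          refine Finset.sum_congr rfl fun R _ => Finset.sum_congr rfl fun x _ =>
            Finset.sum_congr rfl fun y _ => ?_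
          by_cases hx : x ∈ R <;> by_cases hy : y ∈ R <;> simp [hx, hy] <;> ring
  rw [h1]
  exact Finset.sum_nonneg fun R _ => mul_nonneg (hν R) (hA _)

end Pool.Agent.Lib.MP_cff830_lc.SDP
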