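import Pool.Agent.Lib.MP_cff830_lc.SDP.Stmts

/-!
# The Sherali-Adams SDP hierarchy for vertex cover, `c √(log N)` levels: statements of the modules

Proofs: team store `SDP_plan2.md`.
-/

set_option autoImplicit false

namespace Pool.Agent.Lib.MP_cff830_lc.SDP

open Finset MeasureTheory Real

/-- The weights of the binomial distribution. -/
noncomputable def bw (M : ℕ) (q : ℝ) (i : ℕ) : ℝ := (M.choose i : ℝ) * q ^ i * (1 - q) ^ (M - i)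

theorem bw_nonneg {M : ℕ} {q : ℝ} (h0 : 0 ≤ q) (h1 : q ≤ 1) (i : ℕ) : 0 ≤ bw M q i := by
  unfold bw
  have : 0 ≤ 1 - q := by linarith
  positivity

theorem bw_sum (M : ℕ) (q : ℝ) : ∑ i ∈ range (M + 1), bw M q i = 1 := by
  have h := add_pow q (1 - q) M
  rw [add_sub_cancel, one_pow] at h
  rw [h]
  refine Finset.sum_congr rfl fun i _ => ?_
  unfold bw
  ring

theorem IsLoc.mono {V : Type} [DecidableEq V] {k K : ℕ} {μ : Finset V → Finset V → ℝ}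
    (h : IsLoc K μ) (hk : k ≤ K) : IsLoc k μ :=
  ⟨h.nonneg, fun S hS => h.total S (hS.trans hk), fun S T hST hT => h.cons S T hST (hT.trans hk)⟩

/-- (L1) a better lower bound for the marginal probability -/
def StPloS : Prop := ∀ (n : ℕ) (t : ℝ), 1 ≤ n → 0 < t → t < 1 → 1 / 2 - √n * t ≤ pairF n t 1

/-- (L2) a large ball is a binomial mixture of small balls -/
def StBinMix : Prop := ∀ (M : ℕ) (t q : ℝ), 0 < t → t < 1 → 0 < q → q < 1 →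
  ∃ κ : ℝ, 0 ≤ κ ∧ κ ≤ (1 - q) ^ M ∧ ∀ z : ℝ, -1 + 2 * t ^ 2 ≤ z → z ≤ 1 →
    pairF M (√q * t) z = κ + ∑ i ∈ range (M + 1), bw M q i * pairF i t z

/-- (L3) Chernoff bound -/
def StCher : Prop := ∀ (M n : ℕ) (q : ℝ), 0 ≤ q → q ≤ 1 → q * M = 14 * n →
  ∑ i ∈ range n, bw M q i * 145 ^ i ≤ (3 / 10) ^ n

/-- (L4) mixtures of local distributions and the empty set -/
def StConv : Prop := ∀ (V : Type) [Fintype V] [DecidableEq V] (k : ℕ) (I : Finset ℕ) (b : ℕ → ℝ)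
  (μ : ℕ → Finset V → Finset V → ℝ), (∀ i ∈ I, 0 ≤ b i ∧ IsLoc k (μ i)) → ∑ i ∈ I, b i ≤ 1 →
  ∃ μ' : Finset V → Finset V → ℝ, IsLoc k μ' ∧
    (∀ S U, μ' S U ≠ 0 → U = ∅ ∨ ∃ i ∈ I, μ i S U ≠ 0) ∧
    ∀ x y, μ' {x, y} {x, y} = ∑ i ∈ I, b i * μ i {x, y} {x, y}

/-- (L5) the covariance of a random set -/
def StGlob : Prop := ∀ (V : Type) [Fintype V] [DecidableEq V] (k : ℕ)
  (μ : Finset V → Finset V → ℝ) (p : ℝ), IsLoc k μ → Fintype.card V ≤ k →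
  (∀ x, μ {x} {x} = p) → PSD fun x y => μ {x, y} {x, y} - p ^ 2

/-- (L6) the product with the kernel of a random set -/
def StMulR : Prop := ∀ (V : Type) [Fintype V] [DecidableEq V] (A : V → V → ℝ) (ν : Finset V → ℝ),
  PSD A → (∀ R, 0 ≤ ν R) →
  PSD fun x y => A x y * ∑ R, if x ∈ R ∧ y ∈ R then ν R else 0

/-- (L7) choice of the parameters -/
def StParL : Prop := ∀ ε : ℝ, 0 < ε → ε < 1 → ∃ C : ℕ, ∀ k : ℕ, 1 ≤ k → ∃ n p j : ℕ,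
  p.Prime ∧ p ≠ 2 ∧ 1 ≤ j ∧ 1 ≤ n ∧ k ≤ 2 * n ∧ ((3 : ℝ) / 10) ^ n ≤ ε / 1000 ∧
    n * ((j : ℝ) / p) ≤ (ε / 100) ^ 2 ∧ 2 * ((2 * p + j : ℕ) : ℝ) ≤ ε * (j : ℝ) ^ 2 ∧
    2 * p + j ≤ C * k ^ 2

/-- The main theorem: `c √(log N)` levels. -/
def StTopL : Prop := ∀ ε : ℝ, 0 < ε → ∃ C : ℕ, ∀ k : ℕ, 1 ≤ k →
  ∃ (V : Type) (_ : Fintype V) (_ : DecidableEq V) (G : SimpleGraph V),
    0 < Fintype.card V ∧ Fintype.card V ≤ 2 ^ (C * k ^ 2) ∧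
    (∀ U : Finset V, (∀ x y, G.Adj x y → x ∈ U ∨ y ∈ U) →
      (1 - ε) * (Fintype.card V : ℝ) ≤ (U.card : ℝ)) ∧
    ∃ μ : Finset V → Finset V → ℝ, IsSol G k μ ∧
      ∑ x, μ {x} {x} ≤ (1 / 2 + ε) * (Fintype.card V : ℝ)

end Pool.Agent.Lib.MP_cff830_lc.SDP
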