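import Mathlib
import Pool.Agent.Lib.MP_cff830_lc.SDP.Lev.Stmts

/-!
(L7) choice of the parameters
-/

set_option autoImplicit false

namespace Pool.Agent.Lib.MP_cff830_lc.SDP

theorem stParL : StParL := by
  intro ε hε hε1
  obtain ⟨n0, hn0⟩ : ∃ n0 : ℕ, ((3 : ℝ) / 10) ^ n0 < ε / 1000 :=
    exists_pow_lt_of_lt_one (by positivity) (by norm_num)
  obtain ⟨K, hK⟩ : ∃ K : ℕ, (10 : ℝ) ^ 4 / ε ^ 2 ≤ K := ⟨_, Nat.le_ceil _⟩
  obtain ⟨L, hL⟩ : ∃ L : ℕ, 12 * (K : ℝ) / ε ≤ L := ⟨_, Nat.le_ceil _⟩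
  have hε2 : ε ^ 2 ≤ 1 := pow_le_one₀ hε.le hε1.le
  have hK1 : (10 : ℝ) ^ 4 ≤ K := by
    refine le_trans ?_ hK
    rw [le_div_iff₀ (by positivity)]
    nlinarith
  have hK0 : (0 : ℝ) < K := lt_of_lt_of_le (by norm_num) hK1
  have hKε : (10 : ℝ) ^ 4 ≤ K * ε ^ 2 := by
    rwa [div_le_iff₀ (by positivity)] at hK
  have hLε : 12 * (K : ℝ) ≤ L * ε := by
    rwa [div_le_iff₀ hε] at hL
  have hL0 : (0 : ℝ) < L := by
    by_contra h
    have h1 : (L : ℝ) * ε ≤ 0 := mul_nonpos_of_nonpos_of_nonneg (not_lt.mp h) hε.le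
    linarith
  have hKn : 10 ^ 4 ≤ K := by exact_mod_cast hK1
  have hLn : 0 < L := by exact_mod_cast hL0
  refine ⟨6 * K * L * (1 + n0) ^ 2, fun k hk => ?_⟩
  obtain ⟨n, hn⟩ : ∃ n : ℕ, n = k + n0 := ⟨_, rfl⟩
  have hn1 : 1 ≤ n := by omega
  obtain ⟨j, hj⟩ : ∃ j : ℕ, j = L * n := ⟨_, rfl⟩
  have hj1 : 1 ≤ j := by
    rw [hj]
    exact Nat.mul_pos hLn hn1
  obtain ⟨X, hX⟩ : ∃ X : ℕ, X = K * n * j := ⟨_, rfl⟩
  have hXK : K ≤ X := by
    rw [hX, mul_assoc]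
    exact Nat.le_mul_of_pos_right _ (Nat.mul_pos hn1 hj1)
  have hXj : j ≤ X := by
    rw [hX]
    exact Nat.le_mul_of_pos_left _ (Nat.mul_pos (by omega) hn1)
  obtain ⟨p, hp, hXp, hpX⟩ := Nat.exists_prime_lt_and_le_two_mul X (by omega)
  have hp0 : (0 : ℝ) < p := by exact_mod_cast hp.pos
  have hn0' : (0 : ℝ) < n := by exact_mod_cast hn1
  have hj0 : (0 : ℝ) < j := by exact_mod_cast hj1
  refine ⟨n, p, j, hp, by omega, hj1, hn1, by omega, ?_, ?_, ?_, ?_⟩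
  · refine le_trans ?_ hn0.le
    exact pow_le_pow_of_le_one (by norm_num) (by norm_num) (by omega)
  · have h1 : (K : ℝ) * n * j ≤ p := by
      have : K * n * j ≤ p := by
        rw [← hX]
        exact hXp.le
      exact_mod_cast this
    rw [mul_div_assoc', div_le_iff₀ hp0]
    calc (n : ℝ) * j = (1 / 10 ^ 4) * (10 ^ 4) * (n * j) := by norm_num
      _ ≤ (1 / 10 ^ 4) * (K * ε ^ 2) * (n * j) := by gcongr
      _ = (ε / 100) ^ 2 * (K * n * j) := by ring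
      _ ≤ (ε / 100) ^ 2 * p := by gcongr
  · have h1 : 2 * (2 * p + j) ≤ 12 * K * n * j := by
      have h2 : 12 * K * n * j = 12 * X := by
        rw [hX]
        ring
      omega
    have h2 : 2 * ((2 * p + j : ℕ) : ℝ) ≤ 12 * K * n * j := by exact_mod_cast h1
    refine h2.trans ?_
    have h3 : (j : ℝ) = L * n := by
      rw [hj]
      push_cast
      ring
    calc 12 * (K : ℝ) * n * j ≤ (L * ε) * n * j := by gcongr
      _ = ε * (L * n) * j := by ring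
      _ = ε * (j : ℝ) ^ 2 := by
        rw [← h3]
        ring
  · have h1 : 2 * p + j ≤ 6 * X := by omega
    refine h1.trans ?_
    have h2 : n ≤ (1 + n0) * k := by
      rw [hn, add_mul, one_mul]
      exact Nat.add_le_add_left (Nat.le_mul_of_pos_right _ hk) _
    calc 6 * X = 6 * K * L * n ^ 2 := by
          rw [hX, hj]
          ring
      _ ≤ 6 * K * L * ((1 + n0) * k) ^ 2 := by gcongr
      _ = 6 * K * L * (1 + n0) ^ 2 * k ^ 2 := by ring

end Pool.Agent.Lib.MP_cff830_lc.SDP
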