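import Pool.Agent.Lib.MP_cff830_lc.SDP.Lev.Stmts
import Pool.Agent.Lib.MP_cff830_lc.SDP.Plo

/-! (L1) a better lower bound for the marginal probability. -/

set_option autoImplicit false

namespace Pool.Agent.Lib.MP_cff830_lc.SDP

open Finset MeasureTheory Real

theorem stPloS : StPloS := by
  intro n t hn ht ht1
  have hpi := pi_pos
  have hT0 : 0 ≤ arccos t := arccos_nonneg t
  have hc := Plo.cont ht ht1
  have hu : Set.uIcc 0 (arccos t) = Set.Icc 0 (arccos t) := Set.uIcc_of_le hT0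
  have hcn : ContinuousOn (fun v => (1 - t ^ 2 / cos v ^ 2) ^ n) (Set.Icc 0 (arccos t)) :=
    (continuousOn_const.sub hc).pow n
  have hn1 : (1 : ℝ) ≤ n := by exact_mod_cast hn
  have hs1 : 1 ≤ √(n : ℝ) := by
    rw [Real.one_le_sqrt]
    exact hn1
  unfold pairF
  rw [arccos_one, zero_div]
  obtain ⟨a, ha⟩ : ∃ a, a = √(n : ℝ) * t := ⟨_, rfl⟩
  have ha0 : 0 < a := by rw [ha]; positivity
  have hta : t ≤ a := by
    rw [ha]
    exact le_mul_of_one_le_left ht.le hs1
  have ha2 : a ^ 2 = n * t ^ 2 := by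
    rw [ha, mul_pow, Real.sq_sqrt (Nat.cast_nonneg n)]
  have hpos : ∀ v ∈ Set.Icc 0 (arccos t), 0 ≤ (1 - t ^ 2 / cos v ^ 2) ^ n := by
    intro v hv
    obtain ⟨h2, h3⟩ := Plo.ratio ht ht1 hv
    exact pow_nonneg (by linarith) n
  rw [← ha]
  rcases le_or_gt 1 a with h1a | ha1
  · have h1 : 0 ≤ ∫ v in (0 : ℝ)..(arccos t), (1 - t ^ 2 / cos v ^ 2) ^ n :=
      intervalIntegral.integral_nonneg hT0 fun v hv => hpos v hv
    have h2 : 0 ≤ 1 / π * ∫ v in (0 : ℝ)..(arccos t), (1 - t ^ 2 / cos v ^ 2) ^ n :=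
      mul_nonneg (by positivity) h1
    linarith
  · have hA0 : 0 ≤ arccos a := arccos_nonneg a
    have hAT : arccos a ≤ arccos t := arccos_le_arccos hta
    have hsub : Set.Icc 0 (arccos a) ⊆ Set.Icc 0 (arccos t) := Set.Icc_subset_Icc_right hAT
    have hi1 : IntervalIntegrable (fun v => (1 - t ^ 2 / cos v ^ 2) ^ n) volume 0 (arccos a) := by
      apply ContinuousOn.intervalIntegrable
      rw [Set.uIcc_of_le hA0]
      exact hcn.mono hsub
    have hi2 : IntervalIntegrable (fun v => (1 - t ^ 2 / cos v ^ 2) ^ n) volume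
        (arccos a) (arccos t) := by
      apply ContinuousOn.intervalIntegrable
      rw [Set.uIcc_of_le hAT]
      exact hcn.mono (Set.Icc_subset_Icc_left hA0)
    have h1 := intervalIntegral.integral_add_adjacent_intervals hi1 hi2
    have h2 : 0 ≤ ∫ v in (arccos a)..(arccos t), (1 - t ^ 2 / cos v ^ 2) ^ n :=
      intervalIntegral.integral_nonneg hAT fun v hv => hpos v ⟨hA0.trans hv.1, hv.2⟩
    have hca := Plo.cont ha0 ha1
    have hi3 : IntervalIntegrable (fun v => a ^ 2 / cos v ^ 2) volume 0 (arccos a) := by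
      apply ContinuousOn.intervalIntegrable
      rw [Set.uIcc_of_le hA0]
      exact hca
    have hi4 : IntervalIntegrable (fun v => 1 - a ^ 2 / cos v ^ 2) volume 0 (arccos a) :=
      intervalIntegrable_const.sub hi3
    have h3 : ∫ v in (0 : ℝ)..(arccos a), (1 - a ^ 2 / cos v ^ 2) ≤
        ∫ v in (0 : ℝ)..(arccos a), (1 - t ^ 2 / cos v ^ 2) ^ n := by
      refine intervalIntegral.integral_mono_on hA0 hi4 hi1 fun v hv => ?_
      obtain ⟨h2, h3⟩ := Plo.ratio ht ht1 (hsub hv)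
      have h4 := one_add_mul_le_pow (a := -(t ^ 2 / cos v ^ 2)) (by linarith) n
      calc 1 - a ^ 2 / cos v ^ 2 = 1 + n * -(t ^ 2 / cos v ^ 2) := by rw [ha2]; ring
        _ ≤ (1 + -(t ^ 2 / cos v ^ 2)) ^ n := h4
        _ = (1 - t ^ 2 / cos v ^ 2) ^ n := by rw [sub_eq_add_neg]
    have h4 : ∫ v in (0 : ℝ)..(arccos a), (1 - a ^ 2 / cos v ^ 2) =
        arccos a - a ^ 2 * (√(1 - a ^ 2) / a) := by
      rw [intervalIntegral.integral_sub intervalIntegrable_const hi3, Plo.int_inv ha0 ha1]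
      simp
    have h5 : √(1 - a ^ 2) ≤ 1 := by
      rw [Real.sqrt_le_one]
      nlinarith
    have h6 : a ^ 2 * (√(1 - a ^ 2) / a) ≤ a := by
      have : a ^ 2 * (√(1 - a ^ 2) / a) = a * √(1 - a ^ 2) := by
        field_simp
      rw [this]
      exact mul_le_of_le_one_right ha0.le h5
    have h7 : arcsin a ≤ π / 2 * a := by
      have h8 := mul_le_sin (arcsin_nonneg.2 ha0.le) (arcsin_le_pi_div_two a)
      rw [sin_arcsin (by linarith) ha1.le] at h8
      have := mul_le_mul_of_nonneg_left h8 (by positivity : 0 ≤ π / 2)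
      have h9 : π / 2 * (2 / π * arcsin a) = arcsin a := by
        field_simp
      rwa [h9] at this
    have h8 : arccos a = π / 2 - arcsin a := rfl
    have h9 : π / 2 - (π / 2 + 1) * a ≤
        ∫ v in (0 : ℝ)..(arccos t), (1 - t ^ 2 / cos v ^ 2) ^ n := by
      rw [h4] at h3
      linarith
    have h10 : 1 / π * (π / 2 - (π / 2 + 1) * a) ≤
        1 / π * ∫ v in (0 : ℝ)..(arccos t), (1 - t ^ 2 / cos v ^ 2) ^ n :=
      mul_le_mul_of_nonneg_left h9 (by positivity)
    refine le_trans ?_ h10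
    have h11 : 1 / π * (π / 2 - (π / 2 + 1) * a) = 1 / 2 - (1 / 2 + 1 / π) * a := by
      field_simp
    rw [h11]
    have h12 : 1 / π ≤ 1 / 2 := by
      rw [div_le_div_iff₀ hpi (by norm_num)]
      linarith [pi_gt_three]
    nlinarith

end Pool.Agent.Lib.MP_cff830_lc.SDP
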