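import Pool.Agent.Lib.MP_cff830_lc.SDP.Lev.Stmts
import Pool.Agent.Lib.MP_cff830_lc.SDP.Top

/-!
# The Sherali-Adams SDP hierarchy for vertex cover, `c √(log N)` levels: assembly
-/

set_option autoImplicit false

namespace Pool.Agent.Lib.MP_cff830_lc.SDP

open Finset Real

namespace TopLAux

lemma pairF_nonneg (n : ℕ) {t : ℝ} (ht : 0 < t) (ht1 : t < 1) : 0 ≤ pairF n t 1 := by
  unfold pairF
  rw [Real.arccos_one, zero_div]
  refine mul_nonneg (by positivity) ?_
  refine intervalIntegral.integral_nonneg (Real.arccos_nonneg t) fun v hv => ?_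
  refine pow_nonneg ?_ n
  have h1 : t ≤ cos v := by
    have h2 := Real.cos_le_cos_of_nonneg_of_le_pi hv.1 (Real.arccos_le_pi t) hv.2
    rwa [Real.cos_arccos (by linarith) ht1.le] at h2
  have h3 : t ^ 2 / cos v ^ 2 ≤ 1 := by
    have h4 : 0 < cos v := lt_of_lt_of_le ht h1
    rw [div_le_one (by positivity)]
    exact pow_le_pow_left₀ ht.le h1 2
  linarith

/-- One kernel. -/
lemma bn_one (hPlo : StPlo) (hKer : StKer) {r : ℝ} (hr : 39 / 40 ≤ r) (hr1 : r < 1)
    (hP : NN (Pf r) 1) (ht0 : 0 < tF r) (ht1 : tF r < 1) (i : ℕ) :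
    BN (fun x => pairF i (tF r) (Pf r x)) (3 * 145 ^ i) := by
  obtain ⟨g, e, c, η, hg, he, hη, hh⟩ := hKer i r hr hr1
  have h1 := hh 1 (by norm_num)
  rw [hP.at_one, hg.at_one, he.at_one] at h1
  have h2 := pairF_nonneg i ht0 ht1
  have h3 := (hPlo i (tF r) ht0 ht1).2
  have h4 : (1 : ℝ) ≤ 145 ^ i := one_le_pow₀ (by norm_num)
  have h5 : η ≤ 145 ^ i := hη.trans (mul_le_of_le_one_left (by positivity) ht1.le)
  have h6 : |pairF i (tF r) 1 - 1 / 4| ≤ 1 / 4 := by
    rw [abs_le]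
    constructor <;> linarith
  refine ((((BN.const (pairF i (tF r) 1 - 1 / 4)).add (BN.of_NN hg)).sub
    (BN.of_NN he)).mono ?_).congr hh
  linarith

/-- The error kernel. -/
lemma bn_E (hPlo : StPlo) (hKer : StKer) (hCher : StCher) {r : ℝ} (hr : 39 / 40 ≤ r)
    (hr1 : r < 1) (hP : NN (Pf r) 1) (ht0 : 0 < tF r) (ht1 : tF r < 1) {M n : ℕ} {q κ : ℝ}
    (hn : 1 ≤ n) (hq0 : 0 ≤ q) (hq1 : q ≤ 1) (hqM : q * M = 14 * n) (hκ0 : 0 ≤ κ)
    (hκ : κ ≤ (1 - q) ^ M) :
    BN (fun x => κ + ∑ i ∈ range n, bw M q i * pairF i (tF r) (Pf r x)) (4 * (3 / 10) ^ n) := by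
  have h1 := hCher M n q hq0 hq1 hqM
  have h2 : BN (fun x => ∑ i ∈ range n, bw M q i * pairF i (tF r) (Pf r x))
      (∑ i ∈ range n, |bw M q i| * (3 * 145 ^ i)) :=
    BN.sum (range n) fun i _ => (bn_one hPlo hKer hr hr1 hP ht0 ht1 i).smul (bw M q i)
  have h3 : ∑ i ∈ range n, |bw M q i| * (3 * 145 ^ i) = 3 * ∑ i ∈ range n, bw M q i * 145 ^ i := by
    rw [Finset.mul_sum]
    refine Finset.sum_congr rfl fun i _ => ?_
    rw [abs_of_nonneg (bw_nonneg hq0 hq1 i)]
    ring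
  have h4 : κ ≤ ∑ i ∈ range n, bw M q i * 145 ^ i := by
    have h5 : bw M q 0 * 145 ^ 0 ≤ ∑ i ∈ range n, bw M q i * 145 ^ i :=
      Finset.single_le_sum (f := fun i => bw M q i * 145 ^ i)
        (fun i _ => mul_nonneg (bw_nonneg hq0 hq1 i) (by positivity)) (Finset.mem_range.mpr hn)
    have h6 : bw M q 0 * 145 ^ 0 = (1 - q) ^ M := by
      simp [bw]
    linarith
  refine ((BN.const κ).add h2).mono ?_
  rw [h3, abs_of_nonneg hκ0]
  linarith

/-- Positive semidefinite kernels form a cone. -/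
lemma psd_comb {V : Type} [Fintype V] {K L : V → V → ℝ} (hK : PSD K) (hL : PSD L) {a b : ℝ}
    (ha : 0 ≤ a) (hb : 0 ≤ b) : PSD fun x y => a * K x y + b * L x y := by
  intro c
  have h1 : ∑ x, ∑ y, c x * c y * (a * K x y + b * L x y) =
      a * (∑ x, ∑ y, c x * c y * K x y) + b * ∑ x, ∑ y, c x * c y * L x y := by
    simp only [Finset.mul_sum, ← Finset.sum_add_distrib]
    refine Finset.sum_congr rfl fun x _ => Finset.sum_congr rfl fun y _ => ?_
    ring
  rw [h1]
  exact add_nonneg (mul_nonneg ha (hK c)) (mul_nonneg hb (hL c))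

/-- The numbers. -/
lemma num {ε p δ e : ℝ} (h0 : 0 < ε) (h1 : ε < 1) (hp : 1 / 2 - ε / 10 ≤ p)
    (hδ : 0 ≤ δ) (hδ' : δ ≤ ε / 3) (he0 : 0 ≤ e) (he : e ≤ ε / 250) :
    ((1 - δ / 2) * (p - e)) ^ 2 ≤ (1 - 3 * δ / 4) * p ^ 2 ∧
      1 / 2 - ε ≤ (1 - δ / 2) * (p - e) := by
  have hp0 : 0 < p - e := by linarith
  constructor
  · have e6 : (1 - δ / 2) ^ 2 ≤ 1 - 3 * δ / 4 := by nlinarith
    have e7 : (p - e) ^ 2 ≤ p ^ 2 := pow_le_pow_left₀ hp0.le (by linarith) 2
    rw [mul_pow]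
    exact mul_le_mul e6 e7 (by positivity) (by linarith)
  · have e8 : (1 - ε / 6) * (1 / 2 - ε / 10 - ε / 250) ≤ (1 - δ / 2) * (p - e) :=
      mul_le_mul (by linarith) (by linarith) (by linarith) (by linarith)
    nlinarith

lemma natM {n A : ℕ} (hn : 1 ≤ n) (hA : 1 ≤ A) :
    1 ≤ 14 * n * A ∧ n ≤ 14 * n * A ∧ A ≤ 2 * (14 * n * A) := by
  have h1 : n * 1 ≤ n * A := Nat.mul_le_mul_left n hA
  have h2 : 1 * A ≤ n * A := Nat.mul_le_mul_right A hn
  have h3 : 14 * n * A = 14 * (n * A) := Nat.mul_assoc 14 n A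
  omega

lemma num_del {ε η P D : ℝ} (h0 : 0 < ε) (hη : 0 < η) (hη1 : η ≤ ε / 200)
    (hP4 : 4 / 25 ≤ P ^ 2) (hD : D = P ^ 2 + 2 * η) : 4 * η ≤ ε / 3 * D := by
  rw [hD]
  have h1 : ε * (4 / 25) ≤ ε * P ^ 2 := mul_le_mul_of_nonneg_left hP4 h0.le
  have h2 : 0 ≤ ε * η := by positivity
  linarith

end TopLAux

open TopAux TopLAux in
theorem stTopL (hPf : StPf) (hPlo : StPlo) (hKer : StKer) (hFix : StFix) (hPsd : StPsd)
    (hSign : StSign) (hFW : StFW) (hCnt : StCnt) (hMix : StMix) (hBall : StBall)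
    (hPloS : StPloS) (hBinMix : StBinMix) (hCher : StCher) (hConv : StConv) (hGlob : StGlob)
    (hMulR : StMulR) (hPar : StParL) : StTopL := by
  intro ε₁ hε₁
  set ε : ℝ := min ε₁ (1 / 2) with hε
  have h0 : 0 < ε := lt_min hε₁ (by norm_num)
  have h1 : ε < 1 := lt_of_le_of_lt (min_le_right _ _) (by norm_num)
  have hεε : ε ≤ ε₁ := min_le_left _ _
  obtain ⟨C, hC⟩ := hPar ε h0 h1
  refine ⟨C, ?_⟩
  intro k hk
  obtain ⟨n, p, j', hp, hp2, hj, hn, hkn, hn3, hjp, hcnt, hm⟩ := hC k hk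
  set m := 2 * p + j' with hmdef
  have hppos : 0 < p := hp.pos
  have hp' : (0 : ℝ) < p := by exact_mod_cast hppos
  have hj' : (1 : ℝ) ≤ j' := by exact_mod_cast hj
  have hm1 : 1 ≤ m := by omega
  have hm' : (0 : ℝ) < m := by exact_mod_cast hm1
  have hmc : (m : ℝ) = 2 * p + j' := by rw [hmdef]; push_cast; ring
  have hn1 : (1 : ℝ) ≤ n := by exact_mod_cast hn
  -- the parameters
  have hjp0 : 0 ≤ (j' : ℝ) / p := by positivity
  have hjp1 : (j' : ℝ) / p ≤ 1 / 40 := by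
    have e1 : (j' : ℝ) / p ≤ n * (j' / p) := le_mul_of_one_le_left hjp0 hn1
    have e2 : (ε / 100) ^ 2 ≤ 1 / 40 := by nlinarith only [h0, h1]
    linarith
  have hjp2 : (j' : ℝ) < p := by
    have := (div_le_iff₀ hp').mp hjp1
    linarith
  have hm4 : m < 4 * p := by
    have : j' < p := by exact_mod_cast hjp2
    omega
  set r : ℝ := 4 * p / m - 1 with hr
  have hr1 : 1 - r = 2 * j' / m := by
    rw [hr, hmc]
    have : (2 * p + j' : ℝ) ≠ 0 := by positivity
    field_simp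
    ring
  have hr2 : 1 - r ≤ j' / p := by
    rw [hr1, div_le_div_iff₀ hm' hp', hmc]
    nlinarith only [hj', hp']
  have hr3 : r < 1 := by
    have : 0 < 2 * (j' : ℝ) / m := by positivity
    linarith
  have hr4 : 39 / 40 ≤ r := by linarith
  obtain ⟨hP1, hP2, ht0, ht1, -⟩ := hPf r hr4 hr3
  set t : ℝ := tF r with ht
  have htn : √n * t ≤ ε / 50 := by
    have e1 : √(n : ℝ) * √(1 - r) ≤ ε / 100 := by
      rw [← Real.sqrt_mul (by positivity), Real.sqrt_le_left (by positivity)]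
      exact (mul_le_mul_of_nonneg_left hr2 (by positivity)).trans hjp
    have e2 : √(n : ℝ) * t ≤ √(n : ℝ) * (2 * √(1 - r)) :=
      mul_le_mul_of_nonneg_left ht1 (Real.sqrt_nonneg _)
    linarith
  have ht3 : t ≤ ε / 50 := by
    have e1 : (1 : ℝ) ≤ √n := by
      rw [Real.one_le_sqrt]
      exact hn1
    exact (le_mul_of_one_le_left ht0.le e1).trans htn
  have ht2 : t < 1 := by linarith
  have htsq : -1 + 2 * t ^ 2 = Pf r (-r) := by
    have hnn : 0 ≤ (1 + Pf r (-r)) / 2 := by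
      by_contra hcon
      push Not at hcon
      have : tF r = 0 := Real.sqrt_eq_zero_of_nonpos hcon.le
      linarith
    rw [ht, tF, Real.sq_sqrt hnn]
    ring
  -- the large ball
  set M : ℕ := 14 * n * 2 ^ m with hM
  set q : ℝ := 1 / 2 ^ m with hq
  have hq0 : 0 < q := by rw [hq]; positivity
  have hq1 : q < 1 := by
    rw [hq, div_lt_one (by positivity)]
    exact one_lt_pow₀ (by norm_num) (by omega)
  have hqM : q * M = 14 * n := by
    rw [hq, hM]
    push_cast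
    field_simp
  have hM1 : 1 ≤ M := by
    rw [hM]
    exact (natM hn Nat.one_le_two_pow).1
  have hMn : n ≤ M := by
    rw [hM]
    exact (natM hn Nat.one_le_two_pow).2.1
  have hMV : 2 ^ m ≤ 2 * M := by
    rw [hM]
    exact (natM hn Nat.one_le_two_pow).2.2
  set t' : ℝ := √q * t with ht'
  have hsq1 : √q < 1 := by
    rw [Real.sqrt_lt' (by norm_num)]
    linarith
  have hsq0 : 0 < √q := Real.sqrt_pos.mpr hq0
  have ht'0 : 0 < t' := by rw [ht']; positivity
  have ht't : t' ≤ t := by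
    rw [ht']
    exact mul_le_of_le_one_left ht0.le hsq1.le
  have ht'1 : t' < 1 := by linarith
  obtain ⟨κ, hκ0, hκ1, hκ⟩ := hBinMix M t q ht0 ht2 hq0 hq1
  rw [← ht'] at hκ
  set P : ℝ := pairF M t' 1 with hPdef
  have hPlow : 1 / 2 - ε / 10 ≤ P := by
    have e1 := hPloS M t' hM1 ht'0 ht'1
    have e2 : √(M : ℝ) * t' = √14 * (√n * t) := by
      rw [ht', ← mul_assoc, ← Real.sqrt_mul (by positivity), mul_comm (M : ℝ) q, hqM,
        Real.sqrt_mul (by norm_num)]
      ring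
    have e3 : √(14 : ℝ) ≤ 4 := by
      rw [Real.sqrt_le_left (by norm_num)]
      norm_num
    have e4 : √14 * (√n * t) ≤ 4 * (ε / 50) :=
      mul_le_mul e3 htn (by positivity) (by norm_num)
    rw [← hPdef, e2] at e1
    linarith
  have hP3 : P ≤ 1 / 2 := (hPlo M t' ht'0 ht'1).2
  -- the error kernel
  set E : ℝ → ℝ := fun x => κ + ∑ i ∈ range n, bw M q i * pairF i t (Pf r x) with hEdef
  have hE : BN E (4 * (3 / 10) ^ n) :=
    bn_E hPlo hKer hCher hr4 hr3 hP1 ht0 ht2 hn hq0.le hq1.le hqM hκ0 hκ1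
  have hE1 : 0 ≤ E 1 := by
    rw [hEdef]
    dsimp only
    rw [hP1.at_one]
    exact add_nonneg hκ0 (Finset.sum_nonneg fun i _ =>
      mul_nonneg (bw_nonneg hq0.le hq1.le i) (pairF_nonneg i ht0 ht2))
  have hE2 : E 1 ≤ ε / 250 := by
    have e1 := hE.abs_le (x := 1) (by norm_num)
    have e2 := le_abs_self (E 1)
    linarith
  obtain ⟨e₁, g₁, c₁, c₂, he, hg, hcc, hEE⟩ := hE
  set s₀ : ℝ := (3 / 10) ^ n with hs₀
  have hs0 : 0 < s₀ := by rw [hs₀]; positivity
  have hgt := hg.add (NN.const hs0.le)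
  have het := he.add (NN.const hs0.le)
  set η : ℝ := c₁ + s₀ with hη
  have hηpos : 0 < η := by
    have := he.nonneg
    linarith
  have hη1 : η ≤ ε / 200 := by
    have := hg.nonneg
    linarith
  have hP4 : 4 / 25 ≤ P ^ 2 := by nlinarith only [hPlow, h1]
  have hηh : η < P ^ 2 := by linarith
  have hh' : ∀ x : ℝ, |x| ≤ 1 → P ^ 2 - E x = P ^ 2 + (g₁ x + s₀) - (e₁ x + s₀) := by
    intro x hx
    rw [hEE x hx]
    ring
  obtain ⟨w, c', hw, hF⟩ := hFix (fun x => P ^ 2 - E x) _ _ (P ^ 2) _ _ hgt het hηpos hηh hh'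
  set D : ℝ := P ^ 2 + 2 * η with hD
  have hDpos : 0 < D := by linarith
  set δ : ℝ := 4 * η / D with hδ
  have hδ0 : 0 ≤ δ := by rw [hδ]; positivity
  have hδ1 : δ ≤ ε / 3 := by
    rw [hδ, div_le_iff₀ hDpos]
    exact num_del h0 hηpos hη1 hP4 hD
  obtain ⟨hn3', hn4⟩ := TopLAux.num h0 h1 hPlow hδ0 hδ1 hE1 hE2
  obtain ⟨ν, hν0, hν1, hν2⟩ := hSign m w hm1 hw
  -- the local distributions of the balls
  have hK1 : PSD fun x y : Fin m → Bool => Pf r (rho x y) := hPsd m _ _ hm1 hP1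
  have hKt : ∀ x y : Fin m → Bool, -1 + 2 * t ^ 2 ≤ Pf r (rho x y) := fun x y => by
    rw [htsq]; exact hP2 _ (abs_rho hm1 x y)
  have hK2 : ∀ x y : Fin m → Bool, Pf r (rho x y) ≤ 1 := fun x y =>
    (le_abs_self _).trans (hP1.abs_le (abs_rho hm1 x y))
  have hKt' : ∀ x y : Fin m → Bool, -1 + 2 * t' ^ 2 ≤ Pf r (rho x y) := fun x y => by
    have e1 : t' ^ 2 ≤ t ^ 2 := pow_le_pow_left₀ ht'0.le ht't 2
    linarith [hKt x y]
  have hb : ∀ i : ℕ, ∃ μ : Finset (Fin m → Bool) → Finset (Fin m → Bool) → ℝ, 1 ≤ i →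
      IsLoc (2 * i) μ ∧ (∀ S, S.card ≤ 2 * i → ∀ U, U ⊆ S → μ S U ≠ 0 → ∀ x ∈ U, ∀ y ∈ U,
        -1 + 2 * t ^ 2 < Pf r (rho x y)) ∧
      ∀ x y, μ {x, y} {x, y} = pairF i t (Pf r (rho x y)) := by
    intro i
    rcases Nat.eq_zero_or_pos i with rfl | hi
    · exact ⟨fun _ _ => 0, fun h => absurd h (by norm_num)⟩
    · obtain ⟨j, rfl⟩ : ∃ j, i = j + 1 := ⟨i - 1, by omega⟩
      obtain ⟨μ, hμ, hμs, hμp⟩ := hBall (Fin m → Bool) (fun x y => Pf r (rho x y)) j t ht0 ht2
        hK1 (fun x => by rw [rho_self]; exact hP1.at_one) (fun x y => by rw [rho_comm]) hKt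
      exact ⟨μ, fun _ => ⟨by rw [mul_add]; exact hμ, by rw [mul_add]; exact hμs, hμp⟩⟩
  choose μb hμb using hb
  obtain ⟨μc, hμc, hμcs, hμcp⟩ := hConv (Fin m → Bool) (2 * n) (Finset.Ico n (M + 1)) (bw M q) μb
    (fun i hi => ⟨bw_nonneg hq0.le hq1.le i, by
      have hi' := Finset.mem_Ico.mp hi
      exact (hμb i (by omega)).1.mono (by omega)⟩) (by
    rw [← bw_sum M q, Finset.range_eq_Ico]
    refine Finset.sum_le_sum_of_subset_of_nonneg (fun i hi => ?_)
      fun i _ _ => bw_nonneg hq0.le hq1.le i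
    have hi' := Finset.mem_Ico.mp hi
    exact Finset.mem_Ico.mpr ⟨Nat.zero_le i, hi'.2⟩)
  have hμcp' : ∀ x y, μc {x, y} {x, y} = pairF M t' (Pf r (rho x y)) - E (rho x y) := by
    intro x y
    rw [hμcp, hκ _ (hKt x y) (hK2 x y), hEdef]
    dsimp only
    rw [Finset.range_eq_Ico, Finset.range_eq_Ico,
      ← Finset.sum_Ico_consecutive _ (Nat.zero_le n) (by omega : n ≤ M + 1)]
    have e1 : ∑ i ∈ Finset.Ico n (M + 1), bw M q i * μb i {x, y} {x, y} =
        ∑ i ∈ Finset.Ico n (M + 1), bw M q i * pairF i t (Pf r (rho x y)) := by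
      refine Finset.sum_congr rfl fun i hi => ?_
      have hi' := Finset.mem_Ico.mp hi
      rw [(hμb i (by omega)).2.2]
    rw [e1]
    ring
  -- the covariance of the large ball
  have hA : PSD fun x y : Fin m → Bool => pairF M t' (Pf r (rho x y)) - P ^ 2 := by
    obtain ⟨J, hJ⟩ : ∃ J, M = J + 1 := ⟨M - 1, by omega⟩
    obtain ⟨μ, hμ, -, hμp⟩ := hBall (Fin m → Bool) (fun x y => Pf r (rho x y)) J t' ht'0 ht'1
      hK1 (fun x => by rw [rho_self]; exact hP1.at_one) (fun x y => by rw [rho_comm]) hKt'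
    have e1 := hGlob (Fin m → Bool) (2 * J + 2) μ P hμ (by
      rw [Fintype.card_fun, Fintype.card_bool, Fintype.card_fin]
      omega) (fun x => by
        have e2 := hμp x x
        rw [Finset.pair_eq_singleton] at e2
        rw [e2, rho_self, hP1.at_one, hPdef, hJ])
    have e3 : (fun x y : Fin m → Bool => μ {x, y} {x, y} - P ^ 2) =
        fun x y => pairF M t' (Pf r (rho x y)) - P ^ 2 := by
      funext x y
      rw [hμp, hJ]
    rw [← e3]
    exact e1
  have hAR := hMulR (Fin m → Bool) _ ν hA hν0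
  obtain ⟨μ', hμ', hμ's, hμ'p⟩ := hMix (Fin m → Bool) (2 * n) μc ν δ 0 (by omega) hμc hν0 hν1
    hδ0 (by linarith) le_rfl zero_le_one
  -- the moments
  have hM : ∀ x y, μ' {x, y} {x, y} =
      ((1 - δ) * (pairF M t' (Pf r (rho x y)) - P ^ 2) +
        δ * ((pairF M t' (Pf r (rho x y)) - P ^ 2) *
          ∑ R, if x ∈ R ∧ y ∈ R then ν R else 0)) +
      ((1 - 4 * η / D) * (P ^ 2 - E (rho x y)) + η / D *
        ((P ^ 2 - E (rho x y)) * (1 + w (rho x y))) - (1 - 3 * η / D) * P ^ 2) +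
        (1 - 3 * δ / 4) * P ^ 2 := by
    intro x y
    rw [hμ'p, hμcp', hν2, hδ]
    ring
  have hq' : ∀ x, μ' {x} {x} = (1 - δ / 2) * (P - E 1) := by
    intro x
    have h2 := hμ'p x x
    rw [hμcp', hν2, rho_self, hP1.at_one, hw.at_one, Finset.pair_eq_singleton] at h2
    rw [h2]
    ring
  set Q : ℝ := (1 - δ / 2) * (P - E 1) with hQdef
  -- the graph
  let G : SimpleGraph (Fin m → Bool) :=
    { Adj := fun x y => hammingDist x y = 2 * p
      symm := ⟨fun x y h => by rw [hammingDist_comm]; exact h⟩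
      loopless := ⟨fun x h => by rw [hammingDist_self] at h; omega⟩ }
  have hGadj : ∀ x y, G.Adj x y ↔ hammingDist x y = 2 * p := fun _ _ => Iff.rfl
  have hcard : Fintype.card (Fin m → Bool) = 2 ^ m := by simp
  refine ⟨Fin m → Bool, inferInstance, inferInstance, G, ?_, ?_, ?_, comp μ', ?_, ?_⟩
  · rw [hcard]
    positivity
  · rw [hcard]
    exact Nat.pow_le_pow_right (by norm_num) hm
  · intro U hU
    have h2 := hFW m p hp hp2 hm4 Uᶜ (by
      intro x hx y hy h3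
      rcases hU x y h3 with h4 | h4
      · exact Finset.mem_compl.mp hx h4
      · exact Finset.mem_compl.mp hy h4)
    have h3 := hCnt ε p j' hj hcnt
    have h4 : (Uᶜ.card : ℝ) ≤ ε * 2 ^ m := by
      refine le_trans ?_ h3
      have h5 : (Uᶜ.card : ℝ) ≤ ((2 * ∑ i ∈ range p, m.choose i : ℕ) : ℝ) := by exact_mod_cast h2
      refine h5.trans (le_of_eq ?_)
      push_cast
      rfl
    have h5 : ((U.card : ℝ)) + Uᶜ.card = 2 ^ m := by
      have h6 := Finset.card_add_card_compl U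
      rw [hcard] at h6
      exact_mod_cast h6
    rw [hcard]
    push_cast
    have h7 : (0 : ℝ) < 2 ^ m := by positivity
    nlinarith only [h4, h5, h7, hεε]
  · refine ⟨?_, ?_, ?_, ?_, ?_⟩
    · intro S U
      rw [comp]
      split_ifs
      · exact hμ'.nonneg _ _
      · exact le_rfl
    · exact fun S hS => comp_total hμ' S (hS.trans hkn)
    · exact fun S T hST hT U hU => comp_cons hμ' S T hST (hT.trans hkn) U hU
    · intro S hS U hU hne x hx y hy hxy
      rw [comp, if_pos hU] at hne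
      by_contra hcon
      push Not at hcon
      have hx' : x ∈ S \ U := Finset.mem_sdiff.mpr ⟨hx, hcon.1⟩
      have hy' : y ∈ S \ U := Finset.mem_sdiff.mpr ⟨hy, hcon.2⟩
      rcases hμ's S (hS.trans hkn) _ Finset.sdiff_subset hne with h2 | ⟨W, hW1, hW2, hW3⟩
      · rw [h2] at hx'
        exact Finset.notMem_empty x hx'
      · rcases hμcs S W hW3 with h5 | ⟨i, hi, h6⟩
        · have h7 := hW2 hx'
          rw [h5] at h7
          exact Finset.notMem_empty x h7
        · have hi' := Finset.mem_Ico.mp hi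
          have h3 := (hμb i (by omega)).2.1 S (by omega) W hW1 h6 x (hW2 hx') y (hW2 hy')
          have h4 : rho x y = -r := by
            rw [rho, (hGadj x y).mp hxy, hr]
            push_cast
            ring
          rw [h4, ← htsq] at h3
          exact lt_irrefl _ h3
    · intro c₀ c₁'
      have e1 : ∀ x, comp μ' {x} {x} = 1 - Q := by
        intro x
        rw [comp, if_pos subset_rfl, Finset.sdiff_self, single_empty hμ' (by omega), hq']
      have e2 : ∀ x y, comp μ' {x, y} {x, y} = 1 - 2 * Q + μ' {x, y} {x, y} := by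
        intro x y
        rw [comp, if_pos subset_rfl, Finset.sdiff_self, pair_empty hμ' (by omega), hq', hq']
        ring
      have hpsd1 := psd_comb hA hAR (a := 1 - δ) (b := δ) (by linarith) hδ0 c₁'
      have hpsd2 := hPsd m _ _ hm1 hF c₁'
      set s : ℝ := ∑ x, c₁' x with hs
      have hss : ∑ x, ∑ y, c₁' x * c₁' y = s * s := by
        rw [hs, Finset.sum_mul_sum]
      have e3 : ∑ x, c₁' x * comp μ' {x} {x} = (1 - Q) * s := by
        simp_rw [e1]
        rw [← Finset.sum_mul, hs]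
        ring
      have e4 : ∑ x, ∑ y, c₁' x * c₁' y * comp μ' {x, y} {x, y} =
          (1 - 2 * Q + (1 - 3 * δ / 4) * P ^ 2) * (s * s) +
            ∑ x, ∑ y, c₁' x * c₁' y * ((1 - δ) * (pairF M t' (Pf r (rho x y)) - P ^ 2) +
              δ * ((pairF M t' (Pf r (rho x y)) - P ^ 2) *
                ∑ R, if x ∈ R ∧ y ∈ R then ν R else 0)) +
            ∑ x, ∑ y, c₁' x * c₁' y * ((1 - 4 * η / D) * (P ^ 2 - E (rho x y)) + η / D *
              ((P ^ 2 - E (rho x y)) * (1 + w (rho x y))) - (1 - 3 * η / D) * P ^ 2) := by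
        rw [← hss, Finset.mul_sum, ← Finset.sum_add_distrib, ← Finset.sum_add_distrib]
        refine Finset.sum_congr rfl fun x _ => ?_
        rw [Finset.mul_sum, ← Finset.sum_add_distrib, ← Finset.sum_add_distrib]
        refine Finset.sum_congr rfl fun y _ => ?_
        rw [e2, hM]
        ring
      rw [e3, e4]
      have e6 : Q ^ 2 * (s * s) ≤ (1 - 3 * δ / 4) * P ^ 2 * (s * s) :=
        mul_le_mul_of_nonneg_right hn3' (mul_self_nonneg s)
      nlinarith only [sq_nonneg (c₀ + s - Q * s), e6, hpsd1, hpsd2]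
  · have e1 : ∀ x, comp μ' {x} {x} = 1 - Q := by
      intro x
      rw [comp, if_pos subset_rfl, Finset.sdiff_self, single_empty hμ' (by omega), hq']
    simp_rw [e1]
    rw [Finset.sum_const, Finset.card_univ, nsmul_eq_mul, mul_comm]
    refine mul_le_mul_of_nonneg_right ?_ (Nat.cast_nonneg _)
    linarith

end Pool.Agent.Lib.MP_cff830_lc.SDP
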