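import Pool.Agent.Lib.MP_cff830_lc.SDP.Bin
import Pool.Agent.Lib.MP_cff830_lc.SDP.Asin
import Pool.Agent.Lib.MP_cff830_lc.SDP.Pf
import Pool.Agent.Lib.MP_cff830_lc.SDP.Tan
import Pool.Agent.Lib.MP_cff830_lc.SDP.Plo
import Pool.Agent.Lib.MP_cff830_lc.SDP.Ker
import Pool.Agent.Lib.MP_cff830_lc.SDP.Fix
import Pool.Agent.Lib.MP_cff830_lc.SDP.Psd
import Pool.Agent.Lib.MP_cff830_lc.SDP.Sign
import Pool.Agent.Lib.MP_cff830_lc.SDP.FW
import Pool.Agent.Lib.MP_cff830_lc.SDP.Cnt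
import Pool.Agent.Lib.MP_cff830_lc.SDP.Mix
import Pool.Agent.Lib.MP_cff830_lc.SDP.Plane
import Pool.Agent.Lib.MP_cff830_lc.SDP.Polar
import Pool.Agent.Lib.MP_cff830_lc.SDP.Rot
import Pool.Agent.Lib.MP_cff830_lc.SDP.Gram
import Pool.Agent.Lib.MP_cff830_lc.SDP.Pair
import Pool.Agent.Lib.MP_cff830_lc.SDP.Ball
import Pool.Agent.Lib.MP_cff830_lc.SDP.Lev.PloS
import Pool.Agent.Lib.MP_cff830_lc.SDP.Lev.BinMix
import Pool.Agent.Lib.MP_cff830_lc.SDP.Lev.Cher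
import Pool.Agent.Lib.MP_cff830_lc.SDP.Lev.Conv
import Pool.Agent.Lib.MP_cff830_lc.SDP.Lev.Glob
import Pool.Agent.Lib.MP_cff830_lc.SDP.Lev.MulR
import Pool.Agent.Lib.MP_cff830_lc.SDP.Lev.ParL
import Pool.Agent.Lib.MP_cff830_lc.SDP.Lev.TopL

/-!
# The Sherali-Adams SDP hierarchy for vertex cover, `c √(log N)` levels: the theorem
-/

set_option autoImplicit false

namespace Pool.Agent.Lib.MP_cff830_lc.SDP

/-- The main theorem, without hypotheses. -/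
theorem finalL : StTopL :=
  stTopL (stPf stBin) stPlo (stKer stBin stAsin (stPf stBin) stTan) stFix stPsd stSign stFW stCnt
    stMix (stBall stRot stGram (stPair stPlane stPolar stRot)) stPloS stBinMix stCher stConv
    stGlob stMulR stParL

end Pool.Agent.Lib.MP_cff830_lc.SDP
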