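import Pool.Agent.Lib.MP_cff830_lc.SDP.Lev.Stmts

/-! (L3) Chernoff bound. -/

set_option autoImplicit false

namespace Pool.Agent.Lib.MP_cff830_lc.SDP

open Finset Real

namespace CherAux

theorem half_sum (M n : ℕ) {q : ℝ} (h0 : 0 ≤ q) (h1 : q ≤ 1) :
    ∑ i ∈ range n, bw M q i * (1 / 2) ^ i ≤ (1 - q / 2) ^ M := by
  have hnn : ∀ i, 0 ≤ bw M q i * (1 / 2) ^ i := fun i =>
    mul_nonneg (bw_nonneg h0 h1 i) (by positivity)
  have e1 : ∑ i ∈ range (M + 1 + n), bw M q i * (1 / 2) ^ i =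
      ∑ i ∈ range (M + 1), bw M q i * (1 / 2) ^ i := by
    rw [Finset.sum_range_add]
    have : ∑ x ∈ range n, bw M q (M + 1 + x) * (1 / 2) ^ (M + 1 + x) = 0 := by
      refine Finset.sum_eq_zero fun x _ => ?_
      unfold bw
      rw [Nat.choose_eq_zero_of_lt (by omega)]
      simp
    rw [this, add_zero]
  have e2 : ∑ i ∈ range (M + 1), bw M q i * (1 / 2) ^ i = (1 - q / 2) ^ M := by
    have h := add_pow (q / 2) (1 - q) M
    have e : q / 2 + (1 - q) = 1 - q / 2 := by ring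
    rw [e] at h
    rw [h]
    refine Finset.sum_congr rfl fun i _ => ?_
    unfold bw
    rw [div_pow, div_pow]
    ring
  calc ∑ i ∈ range n, bw M q i * (1 / 2) ^ i
      ≤ ∑ i ∈ range (M + 1 + n), bw M q i * (1 / 2) ^ i :=
        Finset.sum_le_sum_of_subset_of_nonneg
          (Finset.range_subset_range.2 (by omega)) (fun i _ _ => hnn i)
    _ = _ := by rw [e1, e2]

theorem exp_bound : 290 * Real.exp (-7) ≤ 3 / 10 := by
  have h1 : (2.7 : ℝ) ^ 7 ≤ Real.exp 7 := by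
    have h2 : (2.7 : ℝ) ≤ Real.exp 1 := by
      have := Real.exp_one_gt_d9
      linarith
    have h3 : Real.exp 7 = Real.exp 1 ^ 7 := by
      rw [← Real.exp_nat_mul]
      norm_num
    rw [h3]
    exact pow_le_pow_left₀ (by norm_num) h2 7
  rw [Real.exp_neg, ← div_eq_mul_inv, div_le_iff₀ (Real.exp_pos 7)]
  norm_num at h1 ⊢
  linarith

end CherAux

open CherAux in
/-- (L3) -/
theorem stCher : StCher := by
  intro M n q h0 h1 hq
  have hA : ∑ i ∈ range n, bw M q i * 145 ^ i ≤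
      290 ^ n * ∑ i ∈ range n, bw M q i * (1 / 2) ^ i := by
    rw [Finset.mul_sum]
    refine Finset.sum_le_sum fun i hi => ?_
    have hin : i ≤ n := (Finset.mem_range.1 hi).le
    have e : (145 : ℝ) ^ i = 290 ^ i * (1 / 2) ^ i := by
      rw [← mul_pow]
      norm_num
    have h2 : (290 : ℝ) ^ i ≤ 290 ^ n := pow_le_pow_right₀ (by norm_num) hin
    have h3 : 0 ≤ bw M q i * (1 / 2) ^ i := mul_nonneg (bw_nonneg h0 h1 i) (by positivity)
    calc bw M q i * 145 ^ i = 290 ^ i * (bw M q i * (1 / 2) ^ i) := by rw [e]; ring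
      _ ≤ 290 ^ n * (bw M q i * (1 / 2) ^ i) := mul_le_mul_of_nonneg_right h2 h3
  have hB : (1 - q / 2) ^ M ≤ Real.exp (-7) ^ n := by
    have h2 : 1 - q / 2 ≤ Real.exp (-(q / 2)) := by
      have := Real.add_one_le_exp (-(q / 2))
      linarith
    have h3 : (1 - q / 2) ^ M ≤ Real.exp (-(q / 2)) ^ M :=
      pow_le_pow_left₀ (by linarith) h2 M
    have h4 : Real.exp (-(q / 2)) ^ M = Real.exp (-7) ^ n := by
      rw [← Real.exp_nat_mul, ← Real.exp_nat_mul]
      congr 1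
      linear_combination (-1 / 2) * hq
    rw [← h4]
    exact h3
  calc ∑ i ∈ range n, bw M q i * 145 ^ i
      ≤ 290 ^ n * ∑ i ∈ range n, bw M q i * (1 / 2) ^ i := hA
    _ ≤ 290 ^ n * Real.exp (-7) ^ n :=
        mul_le_mul_of_nonneg_left ((half_sum M n h0 h1).trans hB) (by positivity)
    _ = (290 * Real.exp (-7)) ^ n := by rw [mul_pow]
    _ ≤ (3 / 10) ^ n := pow_le_pow_left₀ (by positivity) exp_bound n

end Pool.Agent.Lib.MP_cff830_lc.SDP
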